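import Pool.Agent.H621.GT.Main

/-!
# The generalized Tate conjecture over finite fields for the products of varieties with linearly disjoint
# fields of Frobenius eigenvalues

Let `K` be a finite field with `q` elements. For a smooth projective variety `X` over `K` the
generalized Tate conjecture says that every subspace `V` of `H^i(X)` which is stable under Frobenius and
for which `V(ν)` is effective of weight `i - 2 ν` is supported in codimension `ν`: it is contained in
the sum of the images of the Gysin maps from varieties of dimension `dim X - ν`. The condition on `V`
is arithmetic: the eigenvalues of Frobenius on `V` are divisible by `q ^ ν`.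

Say that an eigenvalue `α` has an **integral slope** if the smallest of the `p`-adic valuations (with
`v(q) = 1`) of the conjugates of `α` is an integer; this is so for all eigenvalues if `X` is ordinary.
Say that `X` and `Z` are **independent** if for all eigenvalues `α` of Frobenius on `H(X)` and `β` on
`H(Z)` the fields `ℚ(α)` and `ℚ(β)` are linearly disjoint and one of `α` and `β` has an integral slope.

**Theorem.** (1) If `X` and `Z` are independent then the Galois coniveau `N_ℓ ^ ν H(X × Z)` is contained
in the sum of the `N_ℓ ^ a H(X) ⊗ N_ℓ ^ b H(Z)` with `a + b = ν`.

(2) If the generalized Tate conjecture holds for all varieties in a set `S`, it holds for all varieties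
obtained from the varieties in `S` by repeated products of independent varieties.

No conjecture is assumed for the products, and there is no condition on the Newton polygon of one of
the factors. For instance, let `S_1, …, S_m` be ordinary K3 surfaces over `K` and `Z` any surface for
which the Tate conjecture is known (for instance any K3 surface or abelian surface, ordinary or not),
such that all algebraic classes are defined over `K` and such that the fields generated by the
eigenvalues of Frobenius on the transcendental cohomology of `S_1, …, S_m` and by the eigenvalues on
the cohomology of `Z` are linearly disjoint (their tensor product is a field). Then the generalized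
Tate conjecture holds for `S_1 × ⋯ × S_m × Z`, in all degrees and for all `ν`: for a surface the
conjecture follows from the Tate conjecture. Both conditions are needed for the conclusion of (1): for
two supersingular elliptic curves all classes in `H^1 ⊗ H^1` are algebraic, so of coniveau one, and for
four ordinary elliptic curves with the fields `ℚ(√-a)`, `ℚ(√-b)`, `ℚ(√-c)`, `ℚ(√-abc)` the space
`H^1 ⊗ H^1 ⊗ H^1 ⊗ H^1` contains eigenvectors whose eigenvalues are divisible by `q`, though no
eigenvalue on the first cohomology groups is.

## The formal statement

`W` is a Weil cohomology theory with algebraically closed coefficients (étale cohomology with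
coefficients in the closure of `ℚ_ℓ`, for varieties over the closure of `K`). An `FVar q W` is a variety
with an endomorphism `F` of its cohomology algebra which preserves the degrees, such that the eigenvalues
`α` of `F` in degree `i` are algebraic integers for which `q ^ i / α` is a conjugate of `α` (the
theorem of Deligne). `IsEffectivePart q i ν F V` says that `V` is stable under `F` and that `α / q ^ ν`
and `q ^ (i - ν) / α` are algebraic integers for all eigenvalues `α` of `F` on `V`. `coniveau W X ν` is
the sum of the images of the Gysin maps `H(Y) → H(X)` for the morphisms `Y → X` with
`dim Y = dim X - ν`; the Gysin maps are the Poincaré duals of the pull-backs. `HasIntegralSlope q α`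
says that for some `a` the number `q ^ a` divides `α` and is a combination of the conjugates of `α` with
algebraic integers as coefficients: as the conjugates of `α` divide `q ^ i`, and as the Galois group
permutes the places over `p` transitively, this means that the smallest slope is `a`. `AreDisjoint α β`
says that the minimal polynomial of `α` is irreducible over `ℚ(β)`.

## Proof

Let `q ^ ν` divide `α β`. If `ℚ(α)` and `ℚ(β)` are linearly disjoint, there is for every conjugate `α'`
of `α` an embedding of `ℚ(α, β)` which fixes `β` and maps `α` to `α'`; so `q ^ ν` divides `α' β` for
all conjugates `α'`. If `q ^ a` is a combination of the `α'`, it follows that `q ^ ν` divides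
`q ^ a β` (`split`). The generalized eigenspaces of `F` on `H(X × Z) = H(X) ⊗ H(Z)` are sums of tensor
products of generalized eigenspaces, which gives (1), and the product of Gysin maps is the Gysin map of
the product (`push_ex`), which gives (2).
-/

open CategoryTheory AlgebraicGeometry

universe u

namespace Pool.Agent.Results.MP_8abef2_ag.IndependentProducts

open Pool.Agent.H914 Pool.Agent.H914.VarClass Pool.Agent.H914.VarClass.Obj Pool.Agent.H621.GT

/-- **The Galois coniveau and the generalized Tate conjecture for products of independent varieties over
a finite field.** -/
theorem result {k : Type u} [Field k] {𝒱 : VarClass k} {ops : CycleOps 𝒱}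
    {W : WeilCohomology.{u, 0} ops} [IsAlgClosed W.K] {q : ℕ} (hq : 1 < q) :
    (∀ (X Z Y : FVar q W) (h : Y.X = X.X.prod Z.X), IsProduct X Z Y h → AreIndependent X Z →
      ∀ ν, galoisConiveau Y ν ≤ productConiveau X Z Y h ν) ∧
    ∀ S : Set (FVar q W), (∀ X ∈ S, GeneralizedTate q W X.X X.F) →
      ∀ Y, Generated S Y → GeneralizedTate q W Y.X Y.F :=
  ⟨fun _ _ _ h hP hi ν => galois_prod hq h hP hi ν, fun _ hS _ hY => generated hq hS hY⟩

end Pool.Agent.Results.MP_8abef2_ag.IndependentProducts
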